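import Pool.Agent.W2helper59.CW.Stm

/-!
# Project CW (helper59), piece STEP
-/

set_option autoImplicit false

namespace Pool.Agent.W2helper91.CW

open MeasureTheory Set Pool.Agent.W2helper59.CW

/-- the uniform measure on `[0,1]` -/
noncomputable abbrev nu : Measure ℝ := (volume : Measure ℝ).restrict (Icc (0 : ℝ) 1)

instance instSigmaMu (n : ℕ) : SigmaFinite (mu n) := by
  unfold mu
  infer_instance

theorem meas_occ {m n : ℕ} (p : Equiv.Perm (Fin (m + 1))) (i : ℕ) :
    MeasurableSet {u : Fin n → ℝ | Occ p u i} := by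
  unfold Occ
  by_cases h : i + (m + 1) ≤ n
  · simp only [h, true_and]
    rw [measurableSet_setOfPred]
    refine Measurable.forall fun a => Measurable.forall fun b => Measurable.forall fun ha =>
      Measurable.forall fun hb => Measurable.iff ?_ measurable_const
    rw [← measurableSet_setOfPred]
    exact measurableSet_lt (measurable_pi_apply _) (measurable_pi_apply _)
  · simp [h]

theorem meas_occS {m n : ℕ} (p : Equiv.Perm (Fin (m + 1))) (S : Finset ℕ) :
    MeasurableSet {u : Fin n → ℝ | ∀ i ∈ S, Occ p u i} := by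
  have : {u : Fin n → ℝ | ∀ i ∈ S, Occ p u i} = ⋂ i ∈ S, {u : Fin n → ℝ | Occ p u i} := by
    ext u
    simp
  rw [this]
  exact Finset.measurableSet_biInter S fun i _ => meas_occ p i

/-- the index equivalence -/
def ee (M l : ℕ) : Fin (M + 1) ⊕ Fin (l + 1) ≃ Fin (M + (l + 1) + 1) :=
  finSumFinEquiv.trans (finCongr (by omega))

theorem ee_inl (M l : ℕ) (a : Fin (M + 1)) : (ee M l (Sum.inl a) : ℕ) = a := by
  simp [ee]

theorem ee_inr (M l : ℕ) (b : Fin (l + 1)) : (ee M l (Sum.inr b) : ℕ) = M + 1 + b := by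
  simp [ee]

/-- joining words -/
def me (M l : ℕ) : (Fin (M + 1) → ℝ) × (Fin (l + 1) → ℝ) ≃ᵐ (Fin (M + (l + 1) + 1) → ℝ) :=
  (MeasurableEquiv.sumPiEquivProdPi (fun _ => ℝ)).symm.trans
    (MeasurableEquiv.piCongrLeft (fun _ => ℝ) (ee M l))

theorem me_inl (M l : ℕ) (x : Fin (M + 1) → ℝ) (w : Fin (l + 1) → ℝ) (a : Fin (M + 1)) :
    me M l (x, w) (ee M l (Sum.inl a)) = x a := by
  simp only [me, MeasurableEquiv.trans_apply]
  rw [MeasurableEquiv.piCongrLeft_apply_apply]
  rfl

theorem me_inr (M l : ℕ) (x : Fin (M + 1) → ℝ) (w : Fin (l + 1) → ℝ) (b : Fin (l + 1)) :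
    me M l (x, w) (ee M l (Sum.inr b)) = w b := by
  simp only [me, MeasurableEquiv.trans_apply]
  rw [MeasurableEquiv.piCongrLeft_apply_apply]
  rfl

theorem me_pres (M l : ℕ) : MeasurePreserving (me M l) ((mu (M + 1)).prod (mu (l + 1)))
    (mu (M + (l + 1) + 1)) := by
  have h1 := (measurePreserving_sumPiEquivProdPi
    (fun _ : Fin (M + 1) ⊕ Fin (l + 1) => nu)).symm
  have h2 := measurePreserving_piCongrLeft (fun _ : Fin (M + (l + 1) + 1) => nu) (ee M l)
  exact h2.comp h1

/-- splitting off the last letter -/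
theorem last_split (l : ℕ) (g : (Fin (l + 1) → ℝ) → ENNReal) (hg : Measurable g) :
    ∫⁻ w, g w ∂(mu (l + 1)) = ∫⁻ y, ∫⁻ v, g (Fin.snoc v y) ∂(mu l) ∂nu := by
  have h1 := (measurePreserving_piFinSuccAbove (fun _ : Fin (l + 1) => nu) (Fin.last l)).symm
  have h2 := h1.lintegral_comp_emb (MeasurableEquiv.measurableEmbedding _) g
  have h3 : ∫⁻ w, g w ∂(mu (l + 1)) = ∫⁻ w, g w ∂(Measure.pi fun _ : Fin (l + 1) => nu) := rfl
  rw [h3, ← h2, lintegral_prod]
  · refine lintegral_congr fun y => ?_
    refine lintegral_congr fun v => ?_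
    congr 1
    exact Fin.insertNth_last' y v
  · exact (hg.comp (MeasurableEquiv.measurable _)).aemeasurable

theorem me_left (M l : ℕ) (x : Fin (M + 1) → ℝ) (w : Fin (l + 1) → ℝ) (j : ℕ) (hj : j < M + 1)
    (hj' : j < M + (l + 1) + 1) : me M l (x, w) ⟨j, hj'⟩ = x ⟨j, hj⟩ := by
  have : (⟨j, hj'⟩ : Fin (M + (l + 1) + 1)) = ee M l (Sum.inl ⟨j, hj⟩) := by
    apply Fin.ext
    rw [ee_inl]
  rw [this, me_inl]

theorem me_right (M l : ℕ) (x : Fin (M + 1) → ℝ) (w : Fin (l + 1) → ℝ) (a : Fin (l + 2))
    (h : M + (a : ℕ) < M + (l + 1) + 1) :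
    me M l (x, w) ⟨M + (a : ℕ), h⟩ = (Fin.cons (x (Fin.last M)) w : Fin (l + 2) → ℝ) a := by
  refine Fin.cases ?_ (fun b => ?_) a |> fun (H : ∀ h : M + (a : ℕ) < M + (l + 1) + 1,
    me M l (x, w) ⟨M + (a : ℕ), h⟩ = (Fin.cons (x (Fin.last M)) w : Fin (l + 2) → ℝ) a) => H h
  · intro h
    rw [Fin.cons_zero]
    exact me_left M l x w M (by omega) h
  · intro h
    rw [Fin.cons_succ]
    have : (⟨M + ((Fin.succ b : Fin (l + 2)) : ℕ), h⟩ : Fin (M + (l + 1) + 1)) =
        ee M l (Sum.inr b) := by
      apply Fin.ext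
      change M + ((Fin.succ b : Fin (l + 2)) : ℕ) = _
      rw [ee_inr, Fin.val_succ]
      omega
    rw [this, me_inr]

/-- the pattern on the last word -/
def Pat {l : ℕ} (p : Equiv.Perm (Fin (l + 2))) (z : Fin (l + 2) → ℝ) : Prop :=
  ∀ a b : Fin (l + 2), z a < z b ↔ p a < p b

theorem occ_left {M l : ℕ} (p : Equiv.Perm (Fin (l + 2))) (x : Fin (M + 1) → ℝ)
    (w : Fin (l + 1) → ℝ) (i : ℕ) (hi : i + (l + 1 + 1) ≤ M + 1) :
    Occ (m := l + 1) p (me M l (x, w)) i ↔ Occ (m := l + 1) p x i := by
  constructor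
  · rintro ⟨_, h⟩
    refine ⟨hi, fun a b ha hb => ?_⟩
    have h2 := h a b (by omega) (by omega)
    rw [me_left M l x w _ ha, me_left M l x w _ hb] at h2
    exact h2
  · rintro ⟨_, h⟩
    refine ⟨by omega, fun a b ha hb => ?_⟩
    have ha' := a.2
    have hb' := b.2
    have h2 := h a b (by omega) (by omega)
    rw [me_left M l x w _ (by omega), me_left M l x w _ (by omega)]
    exact h2

theorem occ_right {M l : ℕ} (p : Equiv.Perm (Fin (l + 2))) (x : Fin (M + 1) → ℝ)
    (w : Fin (l + 1) → ℝ) :
    Occ (m := l + 1) p (me M l (x, w)) M ↔ Pat p (Fin.cons (x (Fin.last M)) w) := by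
  constructor
  · rintro ⟨_, h⟩ a b
    have ha' := a.2
    have hb' := b.2
    have h2 := h a b (by omega) (by omega)
    rw [me_right, me_right] at h2
    exact h2
  · intro h
    refine ⟨by omega, fun a b ha hb => ?_⟩
    rw [me_right, me_right]
    exact h a b

theorem step_gen (l : ℕ) (p : Equiv.Perm (Fin (l + 2))) (M M' : ℕ) (hM : M' = M + (l + 1))
    (S : Finset ℕ) (hS : ∀ i ∈ S, i + (l + 1 + 1) ≤ M + 1) (h : ℝ → ENNReal) (hh : Measurable h) :
    ∫⁻ u in {u : Fin (M' + 1) → ℝ | ∀ i ∈ insert M S, Occ (m := l + 1) p u i},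
        h (u (Fin.last _)) ∂(mu (M' + 1)) =
      ∫⁻ u in {u : Fin (M + 1) → ℝ | ∀ i ∈ S, Occ (m := l + 1) p u i},
        Kl p h (u (Fin.last _)) ∂(mu (M + 1)) := by
  subst hM
  rw [← lintegral_indicator (meas_occS p _), ← lintegral_indicator (meas_occS p _)]
  set A := {u : Fin (M + (l + 1) + 1) → ℝ | ∀ i ∈ insert M S, Occ (m := l + 1) p u i} with hA
  set B := {u : Fin (M + 1) → ℝ | ∀ i ∈ S, Occ (m := l + 1) p u i} with hB
  have hmA : MeasurableSet A := meas_occS p _
  have hf : Measurable (A.indicator (fun u => h (u (Fin.last (M + (l + 1)))))) :=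
    (hh.comp (measurable_pi_apply _)).indicator hmA
  rw [← (me_pres M l).lintegral_comp_emb (MeasurableEquiv.measurableEmbedding _), lintegral_prod]
  · refine lintegral_congr fun x => ?_
    rw [last_split l (fun w => A.indicator (fun u => h (u (Fin.last (M + (l + 1)))))
      (me M l (x, w))) (hf.comp ((me M l).measurable.comp measurable_prodMk_left))]
    by_cases hx : x ∈ B
    · rw [indicator_of_mem hx]
      unfold Kl
      refine lintegral_congr fun y => ?_
      have hmE : MeasurableSet {v : Fin l → ℝ | Pat p (Fin.cons (x (Fin.last M))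
          (Fin.snoc v y : Fin (l + 1) → ℝ))} := by
        have h1 : Measurable (fun v : Fin l → ℝ => me M l (x, (Fin.snoc v y : Fin (l + 1) → ℝ))) := by
          refine (me M l).measurable.comp (measurable_const.prodMk ?_)
          rw [measurable_pi_iff]
          intro a
          refine Fin.lastCases ?_ (fun b => ?_) a
          · simp only [Fin.snoc_last]
            exact measurable_const
          · simp only [Fin.snoc_castSucc]
            exact measurable_pi_apply b
        have h2 := h1 (meas_occ (m := l + 1) p M)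
        convert h2 using 1
        ext v
        simp only [mem_ofPred_eq, mem_preimage]
        exact (occ_right p x _).symm
      have key : ∀ v : Fin l → ℝ, A.indicator (fun u => h (u (Fin.last (M + (l + 1)))))
          (me M l (x, (Fin.snoc v y : Fin (l + 1) → ℝ))) =
          {v : Fin l → ℝ | Pat p (Fin.cons (x (Fin.last M))
          (Fin.snoc v y : Fin (l + 1) → ℝ))}.indicator (fun _ => h y) v := by
        intro v
        have hlast : me M l (x, (Fin.snoc v y : Fin (l + 1) → ℝ)) (Fin.last (M + (l + 1))) = y := by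
          have h1 := me_right M l x (Fin.snoc v y : Fin (l + 1) → ℝ) (Fin.last (l + 1))
            (by simp)
          have h2 : (⟨M + ((Fin.last (l + 1) : Fin (l + 2)) : ℕ), by simp⟩ :
              Fin (M + (l + 1) + 1)) = Fin.last (M + (l + 1)) := by
            apply Fin.ext
            simp
          rw [h2] at h1
          rw [h1, ← Fin.succ_last, Fin.cons_succ, Fin.snoc_last]
        have hmem : me M l (x, (Fin.snoc v y : Fin (l + 1) → ℝ)) ∈ A ↔
            v ∈ {v : Fin l → ℝ | Pat p (Fin.cons (x (Fin.last M))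
              (Fin.snoc v y : Fin (l + 1) → ℝ))} := by
          rw [hA, mem_ofPred_eq, mem_ofPred_eq, Finset.forall_mem_insert, occ_right]
          constructor
          · exact fun h => h.1
          · intro h
            refine ⟨h, fun i hi => ?_⟩
            rw [occ_left p x _ i (hS i hi)]
            exact hx i hi
        by_cases hv : v ∈ {v : Fin l → ℝ | Pat p (Fin.cons (x (Fin.last M))
              (Fin.snoc v y : Fin (l + 1) → ℝ))}
        · rw [indicator_of_mem hv, indicator_of_mem (hmem.2 hv), hlast]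
        · rw [indicator_of_notMem hv, indicator_of_notMem (fun h => hv (hmem.1 h))]
      simp only [key]
      rw [lintegral_indicator_const hmE, mul_comm]
      rfl
    · rw [indicator_of_notMem hx]
      have key : ∀ (y : ℝ) (v : Fin l → ℝ),
          A.indicator (fun u => h (u (Fin.last (M + (l + 1)))))
          (me M l (x, (Fin.snoc v y : Fin (l + 1) → ℝ))) = 0 := by
        intro y v
        apply indicator_of_notMem
        intro hmem
        apply hx
        intro i hi
        have := hmem i (Finset.mem_insert_of_mem hi)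
        rwa [occ_left p x _ i (hS i hi)] at this
      simp only [key]
      simp
  · exact (hf.comp (me M l).measurable).aemeasurable

theorem p_step : P_STEP := by
  intro l p k h hh
  have h1 : Sk (l + 1) (k + 1) = insert ((l + 1) * k) (Sk (l + 1) k) := by
    unfold Sk
    rw [Finset.range_add_one, Finset.image_insert]
  rw [h1]
  refine step_gen l p ((l + 1) * k) ((l + 1) * (k + 1)) (by ring) (Sk (l + 1) k) ?_ h hh
  intro i hi
  unfold Sk at hi
  rw [Finset.mem_image] at hi
  obtain ⟨j, hj, rfl⟩ := hi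
  rw [Finset.mem_range] at hj
  have h2 : (l + 1) * (j + 1) ≤ (l + 1) * k := Nat.mul_le_mul_left _ (by omega)
  have h3 : (l + 1) * (j + 1) = (l + 1) * j + (l + 1) := by ring
  omega

end Pool.Agent.W2helper91.CW
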